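import Mathlib

namespace Pool.Agent.Results.MP_c12a31_an.Approx

open Matrix Finset Filter Topology

/-! ### Exponential sums and the Gaussian kernel -/

theorem exp_zeros : ∀ (n : ℕ) (u c x : Fin n → ℝ), StrictMono u → StrictMono x →
    (∀ i, ∑ j, c j * Real.exp (u j * x i) = 0) → c = 0 := by
  intro n
  induction n with
  | zero => intro u c x _ _ _; exact Subsingleton.elim _ _
  | succ n ih =>
    intro u c x hu hx h
    set g : ℝ → ℝ := fun t => ∑ j, c j * Real.exp ((u j - u 0) * t) with hg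
    set g' : ℝ → ℝ := fun t => ∑ j, c j * (Real.exp ((u j - u 0) * t) * (u j - u 0)) with hg'
    have hder : ∀ t, HasDerivAt g (g' t) t := by
      intro t
      apply HasDerivAt.fun_sum
      intro j _
      apply HasDerivAt.const_mul
      have h1 : HasDerivAt (fun t : ℝ => (u j - u 0) * t) (u j - u 0) t := by
        simpa using (hasDerivAt_id t).const_mul (u j - u 0)
      exact h1.exp
    have hgx : ∀ i, g (x i) = 0 := by
      intro i
      have h1 : g (x i) = Real.exp (-(u 0 * x i)) * ∑ j, c j * Real.exp (u j * x i) := by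
        rw [hg, Finset.mul_sum]
        refine Finset.sum_congr rfl fun j _ => ?_
        rw [show (u j - u 0) * x i = -(u 0 * x i) + u j * x i by ring, Real.exp_add]
        ring
      rw [h1, h i, mul_zero]
    have hex : ∀ i : Fin n, ∃ z, x i.castSucc < z ∧ z < x i.succ ∧ g' z = 0 := by
      intro i
      have hlt : x i.castSucc < x i.succ := hx (Fin.castSucc_lt_succ)
      obtain ⟨z, hz, hz0⟩ := exists_hasDerivAt_eq_zero hlt
        (fun t _ => (hder t).continuousAt.continuousWithinAt) (by rw [hgx, hgx])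
        (fun t _ => hder t)
      exact ⟨z, hz.1, hz.2, hz0⟩
    choose z hz1 hz2 hz3 using hex
    have hzm : StrictMono z := by
      intro i j hij
      have h1 : x i.succ ≤ x j.castSucc := by
        apply hx.monotone
        rw [Fin.le_def]
        simp only [Fin.val_succ, Fin.val_castSucc]
        exact hij
      linarith [hz2 i, hz1 j]
    have h2 := ih (fun j => u j.succ - u 0) (fun j => c j.succ * (u j.succ - u 0)) z
      (fun i j hij => by
        have : u i.succ < u j.succ := hu (Fin.succ_lt_succ_iff.mpr hij)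
        show u i.succ - u 0 < u j.succ - u 0
        linarith) hzm (fun i => by
        have h3 := hz3 i
        rw [hg'] at h3
        simp only [] at h3
        rw [Fin.sum_univ_succ] at h3
        rw [sub_self, mul_zero, mul_zero, zero_add] at h3
        rw [← h3]
        refine Finset.sum_congr rfl fun j _ => ?_
        ring)
    have h3 : ∀ j : Fin n, c j.succ = 0 := by
      intro j
      have h4 := congrFun h2 j
      have h5 : u j.succ - u 0 ≠ 0 := by
        have : u 0 < u j.succ := hu (Fin.succ_pos j)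
        linarith
      exact (mul_eq_zero.mp h4).resolve_right h5
    have h4 := h 0
    rw [Fin.sum_univ_succ] at h4
    simp only [h3, zero_mul, Finset.sum_const_zero, add_zero] at h4
    have h5 : c 0 = 0 := (mul_eq_zero.mp h4).resolve_right (Real.exp_pos _).ne'
    funext j
    refine Fin.cases h5 (fun j => h3 j) j

theorem exp_det_pos : ∀ (n : ℕ) (x u : Fin n → ℝ), StrictMono x → StrictMono u →
    0 < (Matrix.of fun i j => Real.exp (u j * x i)).det := by
  intro n
  induction n with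
  | zero => intro x u _ _; rw [Matrix.det_fin_zero]; exact one_pos
  | succ n ih =>
    intro x u hx hu
    set C : Fin (n + 1) → ℝ := fun j => (-1) ^ (n + (j : ℕ)) *
      (Matrix.of fun (i k : Fin n) => Real.exp (u (j.succAbove k) * x i.castSucc)).det with hC
    have hClast : 0 < C (Fin.last n) := by
      rw [hC]
      simp only [Fin.val_last, Fin.succAbove_last]
      rw [show n + n = 2 * n by ring, pow_mul, neg_one_sq, one_pow, one_mul]
      exact ih (fun i => x i.castSucc) (fun i => u i.castSucc)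
        (fun i j hij => hx (Fin.castSucc_lt_castSucc_iff.mpr hij))
        (fun i j hij => hu (Fin.castSucc_lt_castSucc_iff.mpr hij))
    have hF : ∀ y : Fin (n + 1) → ℝ, (∀ i : Fin n, y i.castSucc = x i.castSucc) →
        (Matrix.of fun i j => Real.exp (u j * y i)).det =
          ∑ j, C j * Real.exp (u j * y (Fin.last n)) := by
      intro y hy
      rw [Matrix.det_succ_row _ (Fin.last n)]
      refine Finset.sum_congr rfl fun j _ => ?_
      rw [hC]
      simp only [Fin.val_last, Matrix.of_apply]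
      have h1 : (Matrix.of fun i j => Real.exp (u j * y i)).submatrix (Fin.last n).succAbove
          j.succAbove = Matrix.of fun (i k : Fin n) =>
            Real.exp (u (j.succAbove k) * x i.castSucc) := by
        ext i k
        rw [Matrix.submatrix_apply, Matrix.of_apply, Matrix.of_apply, Fin.succAbove_last, hy]
      rw [h1]
      ring
    -- the exponential sum vanishes at the first `n` points
    have hzero : ∀ i : Fin n, ∑ j, C j * Real.exp (u j * x i.castSucc) = 0 := by
      intro i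
      have h1 := hF (Function.update x (Fin.last n) (x i.castSucc)) (fun k => by
        rw [Function.update_of_ne (Fin.castSucc_lt_last k).ne])
      rw [Function.update_self] at h1
      rw [← h1]
      apply Matrix.det_zero_of_row_eq (Fin.castSucc_lt_last i).ne
      funext j
      simp only [Matrix.of_apply, Function.update_self]
      rw [Function.update_of_ne (Fin.castSucc_lt_last i).ne]
    have hno : ∀ z, (∀ i : Fin n, x i.castSucc < z) →
        ∑ j, C j * Real.exp (u j * z) ≠ 0 := by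
      intro z hz h0
      have h1 := exp_zeros (n + 1) u C (Fin.snoc (fun i : Fin n => x i.castSucc) z) hu
        (by
          intro i j hij
          refine Fin.lastCases ?_ (fun j => ?_) j (motive := fun j => i < j →
            (Fin.snoc (fun i : Fin n => x i.castSucc) z : Fin (n + 1) → ℝ) i <
              (Fin.snoc (fun i : Fin n => x i.castSucc) z : Fin (n + 1) → ℝ) j) hij
          · intro hi
            obtain ⟨i', rfl⟩ := Fin.exists_castSucc_eq.mpr hi.ne
            rw [Fin.snoc_castSucc, Fin.snoc_last]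
            exact hz i'
          · intro hi
            have hne : i ≠ Fin.last n := (hi.trans_le (Fin.le_last _)).ne
            obtain ⟨i', rfl⟩ := Fin.exists_castSucc_eq.mpr hne
            rw [Fin.snoc_castSucc, Fin.snoc_castSucc]
            exact hx hi)
        (by
          intro i
          refine Fin.lastCases ?_ (fun j => ?_) i
          · rw [Fin.snoc_last]; exact h0
          · rw [Fin.snoc_castSucc]; exact hzero j)
      rw [h1] at hClast
      exact absurd hClast (lt_irrefl _)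
    rw [hF x (fun _ => rfl)]
    by_contra hneg
    push Not at hneg
    -- the sum is positive far away
    have hlim : Tendsto (fun t : ℝ => ∑ j, C j * Real.exp ((u j - u (Fin.last n)) * t)) atTop
        (𝓝 (∑ j, C j * if j = Fin.last n then 1 else 0)) := by
      apply tendsto_finsetSum
      intro j _
      apply Tendsto.const_mul
      split_ifs with hj
      · rw [hj, sub_self]
        simp
      · have h1 : u j - u (Fin.last n) < 0 := by
          have : u j < u (Fin.last n) := hu (Fin.lt_last_iff_ne_last.mpr hj)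
          linarith
        exact Real.tendsto_exp_atBot.comp (tendsto_id.const_mul_atTop_of_neg h1)
    have hsum : (∑ j, C j * if j = Fin.last n then (1 : ℝ) else 0) = C (Fin.last n) := by
      simp
    rw [hsum] at hlim
    have hev := (hlim.eventually (lt_mem_nhds hClast)).and
      (eventually_gt_atTop (x (Fin.last n)))
    obtain ⟨T, hT1, hT2⟩ := hev.exists
    have hT : 0 < ∑ j, C j * Real.exp (u j * T) := by
      have h1 : ∑ j, C j * Real.exp (u j * T) = Real.exp (u (Fin.last n) * T) *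
          ∑ j, C j * Real.exp ((u j - u (Fin.last n)) * T) := by
        rw [Finset.mul_sum]
        refine Finset.sum_congr rfl fun j _ => ?_
        rw [show u j * T = u (Fin.last n) * T + (u j - u (Fin.last n)) * T by ring, Real.exp_add]
        ring
      rw [h1]
      exact mul_pos (Real.exp_pos _) hT1
    have hcont : Continuous fun t : ℝ => ∑ j, C j * Real.exp (u j * t) := by fun_prop
    obtain ⟨z, hz, hz0⟩ := intermediate_value_Icc hT2.le hcont.continuousOn ⟨hneg, hT.le⟩
    refine hno z (fun i => ?_) hz0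
    exact lt_of_lt_of_le (hx (Fin.castSucc_lt_last i)) hz.1

/-- the Gaussian kernel -/
noncomputable def G (c x u : ℝ) : ℝ := Real.exp (-(c * (x - u) ^ 2))

theorem G_det_pos {c : ℝ} (hc : 0 < c) {n : ℕ} (x u : Fin n → ℝ) (hx : StrictMono x)
    (hu : StrictMono u) : 0 < (Matrix.of fun i j => G c (x i) (u j)).det := by
  have h1 : (Matrix.of fun i j => G c (x i) (u j)) =
      Matrix.of fun i j => Real.exp (-(c * x i ^ 2)) *
        (Matrix.of fun i j => Real.exp (-(c * u j ^ 2)) *
          (Matrix.of fun i j => Real.exp ((2 * c * u j) * x i)) i j) i j := by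
    ext i j
    simp only [Matrix.of_apply, G]
    rw [← Real.exp_add, ← Real.exp_add]
    congr 1
    ring
  rw [h1, Matrix.det_mul_column, Matrix.det_mul_row]
  refine mul_pos (Finset.prod_pos fun i _ => Real.exp_pos _)
    (mul_pos (Finset.prod_pos fun i _ => Real.exp_pos _) ?_)
  exact exp_det_pos n x (fun j => 2 * c * u j) hx (fun i j hij => by
    have := hu hij
    show 2 * c * u i < 2 * c * u j
    nlinarith)


/-! ### Cauchy–Binet -/

theorem cb_aux {m : ℕ} {ι : Type*} [Fintype ι] [DecidableEq ι] (P : Matrix (Fin m) ι ℝ)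
    (Q : Matrix ι (Fin m) ℝ) :
    (P * Q).det = ∑ a : Fin m → ι, (P.submatrix id a).det * ∏ i, Q (a i) i := by
  rw [det_apply']
  have h1 : ∀ σ : Equiv.Perm (Fin m), ∏ i, (P * Q) (σ i) i =
      ∑ a : Fin m → ι, (∏ i, P (σ i) (a i)) * ∏ i, Q (a i) i := by
    intro σ
    simp only [Matrix.mul_apply]
    rw [Finset.prod_univ_sum, Fintype.piFinset_univ]
    apply Finset.sum_congr rfl
    intro a _
    rw [Finset.prod_mul_distrib]
  simp only [h1, Finset.mul_sum]
  rw [Finset.sum_comm]
  apply Finset.sum_congr rfl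
  intro a _
  rw [det_apply', Finset.sum_mul]
  apply Finset.sum_congr rfl
  intro σ _
  simp only [submatrix_apply, id]
  ring

theorem cauchyBinet {m : ℕ} {ι : Type*} [Fintype ι] [DecidableEq ι] (P : Matrix (Fin m) ι ℝ)
    (Q : Matrix ι (Fin m) ℝ) :
    (P * Q).det = (m.factorial : ℝ)⁻¹ *
      ∑ a : Fin m → ι, (P.submatrix id a).det * (Q.submatrix a id).det := by
  have h1 : ∀ τ : Equiv.Perm (Fin m), (P * Q).det =
      ∑ a : Fin m → ι, (P.submatrix id a).det *
        (((Equiv.Perm.sign τ : ℤ) : ℝ) * ∏ i, Q (a (τ i)) i) := by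
    intro τ
    rw [cb_aux, ← Equiv.sum_comp (Equiv.arrowCongr τ.symm (Equiv.refl ι))]
    apply Finset.sum_congr rfl
    intro a _
    have e : (Equiv.arrowCongr τ.symm (Equiv.refl ι)) a = a ∘ τ := by
      ext i
      simp [Equiv.arrowCongr]
    rw [e]
    have e2 : P.submatrix id (a ∘ τ) = (P.submatrix id a).submatrix id τ := rfl
    rw [e2, Matrix.det_permute']
    simp only [Function.comp_apply]
    ring
  have h2 : (m.factorial : ℝ) * (P * Q).det =
      ∑ a : Fin m → ι, (P.submatrix id a).det * (Q.submatrix a id).det := by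
    calc (m.factorial : ℝ) * (P * Q).det = ∑ τ : Equiv.Perm (Fin m), (P * Q).det := by
          rw [Finset.sum_const, Finset.card_univ, Fintype.card_perm, Fintype.card_fin, nsmul_eq_mul]
      _ = ∑ τ : Equiv.Perm (Fin m), ∑ a : Fin m → ι, (P.submatrix id a).det *
        (((Equiv.Perm.sign τ : ℤ) : ℝ) * ∏ i, Q (a (τ i)) i) :=
          Finset.sum_congr rfl (fun τ _ => h1 τ)
      _ = _ := by
          rw [Finset.sum_comm]
          apply Finset.sum_congr rfl
          intro a _
          rw [← Finset.mul_sum, det_apply' (Q.submatrix a id)]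
          rfl
  have h3 : (m.factorial : ℝ) ≠ 0 := by positivity
  rw [← h2]
  field_simp

/-- total nonnegativity of a kernel on `ℝ × ℝ` -/
def TNR (M : ℝ → ℝ → ℝ) : Prop :=
  ∀ (n : ℕ) (u v : Fin n → ℝ), StrictMono u → StrictMono v →
    0 ≤ (Matrix.of fun i j => M (u i) (v j)).det

/-- one term of the Cauchy–Binet expansion -/
noncomputable def term (c : ℝ) (M : ℝ → ℝ → ℝ) {n : ℕ} (x y a b : Fin n → ℝ) : ℝ :=
  (Matrix.of fun i j => G c (x i) (a j)).det * (Matrix.of fun i j => M (a i) (b j)).det *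
    (Matrix.of fun i j => G c (b i) (y j)).det

theorem term_perm (c : ℝ) (M : ℝ → ℝ → ℝ) {n : ℕ} (x y a b : Fin n → ℝ)
    (σ τ : Equiv.Perm (Fin n)) : term c M x y (a ∘ σ) (b ∘ τ) = term c M x y a b := by
  unfold term
  have h1 : (Matrix.of fun i j => G c (x i) ((a ∘ σ) j)) =
      (Matrix.of fun i j => G c (x i) (a j)).submatrix id σ := rfl
  have h2 : (Matrix.of fun i j => M ((a ∘ σ) i) ((b ∘ τ) j)) =
      ((Matrix.of fun i j => M (a i) (b j)).submatrix σ id).submatrix id τ := rfl
  have h3 : (Matrix.of fun i j => G c ((b ∘ τ) i) (y j)) =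
      (Matrix.of fun i j => G c (b i) (y j)).submatrix τ id := rfl
  rw [h1, h2, h3, Matrix.det_permute', Matrix.det_permute', Matrix.det_permute,
    Matrix.det_permute]
  have hs : ((Equiv.Perm.sign σ : ℤ) : ℝ) * ((Equiv.Perm.sign σ : ℤ) : ℝ) = 1 := by
    rcases Int.units_eq_one_or (Equiv.Perm.sign σ) with h | h <;> rw [h] <;> norm_num
  have ht : ((Equiv.Perm.sign τ : ℤ) : ℝ) * ((Equiv.Perm.sign τ : ℤ) : ℝ) = 1 := by
    rcases Int.units_eq_one_or (Equiv.Perm.sign τ) with h | h <;> rw [h] <;> norm_num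
  calc _ = (((Equiv.Perm.sign σ : ℤ) : ℝ) * ((Equiv.Perm.sign σ : ℤ) : ℝ)) *
        (((Equiv.Perm.sign τ : ℤ) : ℝ) * ((Equiv.Perm.sign τ : ℤ) : ℝ)) *
        ((Matrix.of fun i j => G c (x i) (a j)).det * (Matrix.of fun i j => M (a i) (b j)).det *
    (Matrix.of fun i j => G c (b i) (y j)).det) := by ring
    _ = _ := by rw [hs, ht, one_mul, one_mul]

theorem term_mono {c : ℝ} (hc : 0 < c) {M M' : ℝ → ℝ → ℝ} {n : ℕ}
    (hM : ∀ u v : Fin n → ℝ, StrictMono u → StrictMono v →
      (Matrix.of fun i j => M (u i) (v j)).det ≤ (Matrix.of fun i j => M' (u i) (v j)).det)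
    {x y : Fin n → ℝ} (hx : StrictMono x) (hy : StrictMono y) (a b : Fin n → ℝ) :
    term c M x y a b ≤ term c M' x y a b := by
  by_cases ha : Function.Injective a
  swap
  · have h0 : (Matrix.of fun i j => G c (x i) (a j)).det = 0 := by
      simp only [Function.Injective, not_forall] at ha
      obtain ⟨i, j, hij, hne⟩ := ha
      exact Matrix.det_zero_of_column_eq hne (fun k => by simp [hij])
    unfold term
    rw [h0]; simp
  by_cases hb : Function.Injective b
  swap
  · have h0 : (Matrix.of fun i j => G c (b i) (y j)).det = 0 := by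
      simp only [Function.Injective, not_forall] at hb
      obtain ⟨i, j, hij, hne⟩ := hb
      apply Matrix.det_zero_of_row_eq hne
      funext k
      simp [hij]
    unfold term
    rw [h0]; simp
  have hsa : StrictMono (a ∘ Tuple.sort a) :=
    (Tuple.monotone_sort a).strictMono_of_injective (ha.comp (Tuple.sort a).injective)
  have hsb : StrictMono (b ∘ Tuple.sort b) :=
    (Tuple.monotone_sort b).strictMono_of_injective (hb.comp (Tuple.sort b).injective)
  rw [← term_perm c M x y a b (Tuple.sort a) (Tuple.sort b),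
    ← term_perm c M' x y a b (Tuple.sort a) (Tuple.sort b)]
  unfold term
  refine mul_le_mul_of_nonneg_right (mul_le_mul_of_nonneg_left (hM _ _ hsa hsb) ?_) ?_
  · exact (G_det_pos hc x _ hx hsa).le
  · exact (G_det_pos hc _ y hsb hy).le

/-- the smoothed kernel -/
noncomputable def LM (c : ℝ) (S : Finset ℝ) (M : ℝ → ℝ → ℝ) (x y : ℝ) : ℝ :=
  ∑ u ∈ S, ∑ v ∈ S, G c x u * M u v * G c v y

theorem det_LM (c : ℝ) (S : Finset ℝ) (M : ℝ → ℝ → ℝ) {n : ℕ} (x y : Fin n → ℝ) :
    (Matrix.of fun i j => LM c S M (x i) (y j)).det =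
      (n.factorial : ℝ)⁻¹ * ((n.factorial : ℝ)⁻¹ * ∑ a : Fin n → S, ∑ b : Fin n → S,
        term c M x y (fun i => a i) (fun i => b i)) := by
  classical
  have h1 : (Matrix.of fun i j => LM c S M (x i) (y j)) =
      (Matrix.of fun (i : Fin n) (u : S) => G c (x i) u) *
        ((Matrix.of fun (u v : S) => M u v) * (Matrix.of fun (v : S) (j : Fin n) => G c v (y j))) := by
    ext i j
    rw [Matrix.mul_apply]
    simp only [Matrix.mul_apply, Matrix.of_apply, LM]
    rw [← Finset.sum_coe_sort S]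
    refine Finset.sum_congr rfl fun u _ => ?_
    rw [← Finset.sum_coe_sort S, Finset.mul_sum]
    refine Finset.sum_congr rfl fun v _ => ?_
    ring
  rw [h1, cauchyBinet]
  congr 1
  rw [Finset.mul_sum]
  refine Finset.sum_congr rfl fun a _ => ?_
  have h2 : ((Matrix.of fun (u v : S) => M u v) *
      (Matrix.of fun (v : S) (j : Fin n) => G c v (y j))).submatrix a id =
      (Matrix.of fun (i : Fin n) (v : S) => M (a i) v) *
      (Matrix.of fun (v : S) (j : Fin n) => G c v (y j)) := by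
    ext i j
    rfl
  rw [h2, cauchyBinet, Finset.mul_sum, Finset.mul_sum, Finset.mul_sum]
  refine Finset.sum_congr rfl fun b _ => ?_
  unfold term
  have h3 : ((Matrix.of fun (i : Fin n) (u : S) => G c (x i) u).submatrix id a) =
    Matrix.of fun i j => G c (x i) (a j) := rfl
  have h4 : ((Matrix.of fun (i : Fin n) (v : S) => M (a i) v).submatrix id b) =
    Matrix.of fun i j => M (a i) (b j) := rfl
  have h5 : ((Matrix.of fun (v : S) (j : Fin n) => G c v (y j)).submatrix b id) =
    Matrix.of fun i j => G c (b i) (y j) := rfl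
  rw [h3, h4, h5]
  ring

theorem det_LM_mono {c : ℝ} (hc : 0 < c) (S : Finset ℝ) {M M' : ℝ → ℝ → ℝ} {n : ℕ}
    (hM : ∀ u v : Fin n → ℝ, StrictMono u → StrictMono v →
      (Matrix.of fun i j => M (u i) (v j)).det ≤ (Matrix.of fun i j => M' (u i) (v j)).det)
    {x y : Fin n → ℝ} (hx : StrictMono x) (hy : StrictMono y) :
    (Matrix.of fun i j => LM c S M (x i) (y j)).det ≤
      (Matrix.of fun i j => LM c S M' (x i) (y j)).det := by
  rw [det_LM, det_LM]
  have h : (0 : ℝ) ≤ (n.factorial : ℝ)⁻¹ := by positivity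
  refine mul_le_mul_of_nonneg_left (mul_le_mul_of_nonneg_left ?_ h) h
  exact Finset.sum_le_sum fun a _ => Finset.sum_le_sum fun b _ => term_mono hc hM hx hy _ _

theorem term_nonneg {c : ℝ} (hc : 0 < c) {M : ℝ → ℝ → ℝ} (hM : TNR M) {n : ℕ}
    {x y : Fin n → ℝ} (hx : StrictMono x) (hy : StrictMono y) (a b : Fin n → ℝ) :
    0 ≤ term c M x y a b := by
  rcases n with _ | n
  · unfold term
    simp
  · have h := term_mono hc (M := fun _ _ => 0) (M' := M) (fun u v hu hv => by
      refine le_trans (le_of_eq ?_) (hM _ u v hu hv)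
      exact Matrix.det_eq_zero_of_row_eq_zero 0 (fun j => rfl)) hx hy a b
    refine le_trans (le_of_eq ?_) h
    unfold term
    have h0 : (Matrix.of fun (_ : Fin (n + 1)) (_ : Fin (n + 1)) => (0 : ℝ)).det = 0 :=
      Matrix.det_eq_zero_of_row_eq_zero 0 (fun j => rfl)
    rw [h0]; simp

theorem det_LM_pos {c : ℝ} (hc : 0 < c) (S : Finset ℝ) {M : ℝ → ℝ → ℝ} (hM : TNR M) {n : ℕ}
    {x y : Fin n → ℝ} (hx : StrictMono x) (hy : StrictMono y) (a b : Fin n → ℝ)
    (ha : ∀ i, a i ∈ S) (hb : ∀ i, b i ∈ S) (hsa : StrictMono a) (hsb : StrictMono b)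
    (hpos : 0 < (Matrix.of fun i j => M (a i) (b j)).det) :
    0 < (Matrix.of fun i j => LM c S M (x i) (y j)).det := by
  rw [det_LM]
  have h : (0 : ℝ) < (n.factorial : ℝ)⁻¹ := by positivity
  refine mul_pos h (mul_pos h ?_)
  have h1 : term c M x y (fun i => ((⟨a i, ha i⟩ : S) : ℝ)) (fun i => ((⟨b i, hb i⟩ : S) : ℝ)) ≤
      ∑ a : Fin n → S, ∑ b : Fin n → S, term c M x y (fun i => a i) (fun i => b i) := by
    refine le_trans ?_ (Finset.single_le_sum (f := fun a : Fin n → S =>
      ∑ b : Fin n → S, term c M x y (fun i => a i) (fun i => b i))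
      (fun a' _ => Finset.sum_nonneg fun b' _ => term_nonneg hc hM hx hy _ _)
      (Finset.mem_univ (fun i => (⟨a i, ha i⟩ : S))))
    exact Finset.single_le_sum (f := fun b' : Fin n → S =>
      term c M x y (fun i => ((⟨a i, ha i⟩ : S) : ℝ)) (fun i => b' i))
      (fun b' _ => term_nonneg hc hM hx hy _ _)
      (Finset.mem_univ (fun i => (⟨b i, hb i⟩ : S)))
  refine lt_of_lt_of_le ?_ h1
  unfold term
  exact mul_pos (mul_pos (G_det_pos hc x _ hx hsa) hpos) (G_det_pos hc _ y hsb hy)

/-! ### Adding a point -/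

/-- `M + ε 1_{(r,r)}` -/
noncomputable def addPt (M : ℝ → ℝ → ℝ) (r ε : ℝ) (u v : ℝ) : ℝ :=
  M u v + if u = r ∧ v = r then ε else 0

theorem addPt_mono {M : ℝ → ℝ → ℝ} {r ε : ℝ} (hε : 0 ≤ ε) (hM : TNR M)
    (h1 : ∀ u v, r ≤ u → M u v = 0) (h2 : ∀ u v, r ≤ v → M u v = 0) {n : ℕ}
    (u v : Fin n → ℝ) (hu : StrictMono u) (hv : StrictMono v) :
    (Matrix.of fun i j => M (u i) (v j)).det ≤
      (Matrix.of fun i j => addPt M r ε (u i) (v j)).det := by
  by_cases hr : (∃ i, u i = r) ∧ ∃ j, v j = r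
  swap
  · apply le_of_eq
    congr 1
    ext i j
    simp only [Matrix.of_apply, addPt]
    rw [if_neg, add_zero]
    rintro ⟨h3, h4⟩
    exact hr ⟨⟨i, h3⟩, ⟨j, h4⟩⟩
  obtain ⟨⟨i0, hi0⟩, ⟨j0, hj0⟩⟩ := hr
  have hdet0 : (Matrix.of fun i j => M (u i) (v j)).det = 0 :=
    Matrix.det_eq_zero_of_row_eq_zero i0 (fun j => h1 _ _ hi0.ge)
  rw [hdet0]
  rcases n with _ | n
  · exact i0.elim0
  by_cases hi : i0 = Fin.last n
  swap
  · apply ge_of_eq
    apply Matrix.det_eq_zero_of_row_eq_zero (Fin.last n)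
    intro j
    have h3 : r < u (Fin.last n) := by
      rw [← hi0]; exact hu (Fin.lt_last_iff_ne_last.mpr hi)
    simp only [Matrix.of_apply, addPt]
    rw [h1 _ _ h3.le, if_neg, add_zero]
    rintro ⟨h4, -⟩
    exact absurd h4 h3.ne'
  by_cases hj : j0 = Fin.last n
  swap
  · apply ge_of_eq
    apply Matrix.det_eq_zero_of_column_eq_zero (Fin.last n)
    intro i
    have h3 : r < v (Fin.last n) := by
      rw [← hj0]; exact hv (Fin.lt_last_iff_ne_last.mpr hj)
    simp only [Matrix.of_apply, addPt]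
    rw [h2 _ _ h3.le, if_neg, add_zero]
    rintro ⟨-, h4⟩
    exact absurd h4 h3.ne'
  subst hi hj
  rw [Matrix.det_succ_row _ (Fin.last n), Finset.sum_eq_single (Fin.last n)]
  · simp only [Matrix.of_apply, addPt]
    rw [h1 _ _ hi0.ge, if_pos ⟨hi0, hj0⟩, zero_add, ← two_mul, pow_mul, neg_one_sq, one_pow,
      one_mul, Fin.succAbove_last]
    refine mul_nonneg hε ?_
    have h3 := hM n (fun i => u i.castSucc) (fun i => v i.castSucc)
      (fun i j hij => hu (Fin.castSucc_lt_castSucc_iff.mpr hij))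
      (fun i j hij => hv (Fin.castSucc_lt_castSucc_iff.mpr hij))
    refine le_trans h3 (le_of_eq ?_)
    congr 1
    ext i j
    simp only [Matrix.submatrix_apply, Matrix.of_apply]
    rw [if_neg, add_zero]
    rintro ⟨h4, -⟩
    have : u i.castSucc < u (Fin.last n) := hu (Fin.castSucc_lt_last i)
    rw [h4, hi0] at this
    exact lt_irrefl _ this
  · intro j _ hj
    simp only [Matrix.of_apply, addPt]
    rw [h1 _ _ hi0.ge, if_neg]
    · ring
    · rintro ⟨-, h4⟩
      have : v j < v (Fin.last n) := hv (Fin.lt_last_iff_ne_last.mpr hj)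
      rw [h4, hj0] at this
      exact lt_irrefl _ this
  · intro h; exact absurd (Finset.mem_univ _) h

theorem addPt_TN {M : ℝ → ℝ → ℝ} {r ε : ℝ} (hε : 0 ≤ ε) (hM : TNR M)
    (h1 : ∀ u v, r ≤ u → M u v = 0) (h2 : ∀ u v, r ≤ v → M u v = 0) : TNR (addPt M r ε) :=
  fun n u v hu hv => (hM n u v hu hv).trans (addPt_mono hε hM h1 h2 u v hu hv)

/-- iterated addition of the points `r, r + 1, …` with masses `ε 0, ε 1, …` -/
noncomputable def Mk (M : ℝ → ℝ → ℝ) (r : ℝ) (ε : ℕ → ℝ) : ℕ → ℝ → ℝ → ℝ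
  | 0 => M
  | (k + 1) => addPt (Mk M r ε k) (r + k) (ε k)

theorem Mk_eq (M : ℝ → ℝ → ℝ) (r : ℝ) (ε : ℕ → ℝ) (k : ℕ) (u v : ℝ) :
    Mk M r ε k u v = M u v + ∑ j ∈ Finset.range k, if u = r + j ∧ v = r + j then ε j else 0 := by
  induction k with
  | zero => simp [Mk]
  | succ k ih =>
    show Mk M r ε k u v + _ = _
    rw [ih, Finset.sum_range_succ]
    ring

variable {M : ℝ → ℝ → ℝ} {r : ℝ} {ε : ℕ → ℝ}

theorem Mk_zero1 (h1 : ∀ u v, r ≤ u → M u v = 0) (k : ℕ) (u v : ℝ) (hu : r + k ≤ u) :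
    Mk M r ε k u v = 0 := by
  rw [Mk_eq, h1 _ _ (by have : (0 : ℝ) ≤ k := Nat.cast_nonneg _; linarith), zero_add]
  apply Finset.sum_eq_zero
  intro j hj
  rw [if_neg]
  rintro ⟨h3, -⟩
  have : (j : ℝ) < k := by exact_mod_cast Finset.mem_range.mp hj
  linarith

theorem Mk_zero2 (h2 : ∀ u v, r ≤ v → M u v = 0) (k : ℕ) (u v : ℝ) (hv : r + k ≤ v) :
    Mk M r ε k u v = 0 := by
  rw [Mk_eq, h2 _ _ (by have : (0 : ℝ) ≤ k := Nat.cast_nonneg _; linarith), zero_add]
  apply Finset.sum_eq_zero
  intro j hj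
  rw [if_neg]
  rintro ⟨-, h3⟩
  have : (j : ℝ) < k := by exact_mod_cast Finset.mem_range.mp hj
  linarith

theorem Mk_TN (hε : ∀ k, 0 ≤ ε k) (hM : TNR M)
    (h1 : ∀ u v, r ≤ u → M u v = 0) (h2 : ∀ u v, r ≤ v → M u v = 0) (k : ℕ) :
    TNR (Mk M r ε k) := by
  induction k with
  | zero => exact hM
  | succ k ih => exact addPt_TN (hε k) ih (Mk_zero1 h1 k) (Mk_zero2 h2 k)

theorem Mk_mono (hε : ∀ k, 0 ≤ ε k) (hM : TNR M)
    (h1 : ∀ u v, r ≤ u → M u v = 0) (h2 : ∀ u v, r ≤ v → M u v = 0) {n k : ℕ} (hnk : n ≤ k)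
    {m : ℕ} (u v : Fin m → ℝ) (hu : StrictMono u) (hv : StrictMono v) :
    (Matrix.of fun i j => Mk M r ε n (u i) (v j)).det ≤
      (Matrix.of fun i j => Mk M r ε k (u i) (v j)).det := by
  induction k, hnk using Nat.le_induction with
  | base => exact le_rfl
  | succ k _ ih =>
    exact ih.trans (addPt_mono (hε k) (Mk_TN hε hM h1 h2 k) (Mk_zero1 h1 k) (Mk_zero2 h2 k)
      u v hu hv)

theorem Mk_diag (h1 : ∀ u v, r ≤ u → M u v = 0) (n : ℕ) :
    (Matrix.of fun (i j : Fin n) => Mk M r ε n (r + i) (r + j)) =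
      Matrix.diagonal fun i : Fin n => ε i := by
  ext i j
  rw [Matrix.of_apply, Mk_eq, h1 _ _ (by
    have : (0 : ℝ) ≤ (i : ℕ) := Nat.cast_nonneg _
    linarith), zero_add, Matrix.diagonal_apply]
  by_cases hij : i = j
  · subst hij
    rw [if_pos rfl, Finset.sum_eq_single (i : ℕ)]
    · simp
    · intro k _ hk
      rw [if_neg]
      rintro ⟨h3, -⟩
      have h4 : ((i : ℕ) : ℝ) = k := by linarith
      exact hk (by exact_mod_cast h4.symm)
    · intro h
      exact absurd (Finset.mem_range.mpr i.2) h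
  · rw [if_neg hij]
    apply Finset.sum_eq_zero
    intro k _
    rw [if_neg]
    rintro ⟨h3, h4⟩
    have h5 : ((i : ℕ) : ℝ) = ((j : ℕ) : ℝ) := by linarith
    exact hij (Fin.ext (by exact_mod_cast h5))


/-! ### Linear algebra of `LM` -/

theorem LM_add (c : ℝ) (S : Finset ℝ) (M₁ M₂ : ℝ → ℝ → ℝ) (x y : ℝ) :
    LM c S (fun u v => M₁ u v + M₂ u v) x y = LM c S M₁ x y + LM c S M₂ x y := by
  unfold LM
  rw [← Finset.sum_add_distrib]
  refine Finset.sum_congr rfl fun u _ => ?_
  rw [← Finset.sum_add_distrib]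
  refine Finset.sum_congr rfl fun v _ => ?_
  ring

theorem LM_sum {ι : Type} (T : Finset ι) (c : ℝ) (S : Finset ℝ) (F : ι → ℝ → ℝ → ℝ) (x y : ℝ) :
    LM c S (fun u v => ∑ i ∈ T, F i u v) x y = ∑ i ∈ T, LM c S (F i) x y := by
  unfold LM
  rw [Finset.sum_comm (s := T)]
  refine Finset.sum_congr rfl fun u _ => ?_
  rw [Finset.sum_comm (s := T)]
  refine Finset.sum_congr rfl fun v _ => ?_
  rw [Finset.mul_sum, Finset.sum_mul]

theorem LM_single (c : ℝ) (S : Finset ℝ) {p q : ℝ} (hp : p ∈ S) (hq : q ∈ S) (e x y : ℝ) :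
    LM c S (fun u v => if u = p ∧ v = q then e else 0) x y = G c x p * e * G c q y := by
  unfold LM
  rw [Finset.sum_eq_single p, Finset.sum_eq_single q]
  · simp only [and_self, if_true]
  · intro v _ hv
    simp only [hv, and_false, if_false]
    ring
  · intro h; exact absurd hq h
  · intro u _ hu
    apply Finset.sum_eq_zero
    intro v _
    simp only [hu, false_and, if_false]
    ring
  · intro h; exact absurd hp h

/-! ### The definitions of the problem -/

/-- totally nonnegative kernels -/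
def TN {X Y : Set ℝ} (K : X → Y → ℝ) : Prop :=
  ∀ (n : ℕ) (x : Fin n → X) (y : Fin n → Y), StrictMono x → StrictMono y →
    0 ≤ (Matrix.of fun i j => K (x i) (y j)).det

/-- totally positive kernels -/
def TP {X Y : Set ℝ} (K : X → Y → ℝ) : Prop :=
  ∀ (n : ℕ) (x : Fin n → X) (y : Fin n → Y), StrictMono x → StrictMono y →
    0 < (Matrix.of fun i j => K (x i) (y j)).det

section Net

variable {X Y : Set ℝ} (K : X → Y → ℝ) (A : Finset X) (B : Finset Y)

/-- the restriction of `K` to a finite grid, extended by zero -/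
noncomputable def M0 (u v : ℝ) : ℝ :=
  ∑ a ∈ A, ∑ b ∈ B, if u = (a : ℝ) ∧ v = (b : ℝ) then K a b else 0

theorem M0_coe {a : X} {b : Y} (ha : a ∈ A) (hb : b ∈ B) : M0 K A B a b = K a b := by
  unfold M0
  rw [Finset.sum_eq_single a, Finset.sum_eq_single b]
  · rw [if_pos ⟨rfl, rfl⟩]
  · intro b' _ hb'
    rw [if_neg]
    rintro ⟨-, h⟩
    exact hb' (Subtype.ext h.symm)
  · intro h; exact absurd hb h
  · intro a' _ ha'
    apply Finset.sum_eq_zero
    intro b' _
    rw [if_neg]
    rintro ⟨h, -⟩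
    exact ha' (Subtype.ext h.symm)
  · intro h; exact absurd ha h

theorem M0_TN (hK : TN K) : TNR (M0 K A B) := by
  intro n u v hu hv
  by_cases h1 : ∀ i, ∃ a ∈ A, (a : ℝ) = u i
  swap
  · push Not at h1
    obtain ⟨i, hi⟩ := h1
    apply ge_of_eq
    apply Matrix.det_eq_zero_of_row_eq_zero i
    intro j
    rw [Matrix.of_apply]
    unfold M0
    refine Finset.sum_eq_zero fun a ha => Finset.sum_eq_zero fun b _ => ?_
    rw [if_neg]
    rintro ⟨h, -⟩
    exact hi a ha h.symm
  by_cases h2 : ∀ i, ∃ b ∈ B, (b : ℝ) = v i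
  swap
  · push Not at h2
    obtain ⟨i, hi⟩ := h2
    apply ge_of_eq
    apply Matrix.det_eq_zero_of_column_eq_zero i
    intro j
    rw [Matrix.of_apply]
    unfold M0
    refine Finset.sum_eq_zero fun a _ => Finset.sum_eq_zero fun b hb => ?_
    rw [if_neg]
    rintro ⟨-, h⟩
    exact hi b hb h.symm
  choose a ha hau using h1
  choose b hb hbv using h2
  have h3 := hK n a b (fun i j hij => by
    have := hu hij
    rw [← hau i, ← hau j] at this
    exact this) (fun i j hij => by
    have := hv hij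
    rw [← hbv i, ← hbv j] at this
    exact this)
  refine le_trans h3 (le_of_eq ?_)
  congr 1
  ext i j
  rw [Matrix.of_apply, Matrix.of_apply, ← hau i, ← hbv j, M0_coe K A B (ha i) (hb j)]

theorem M0_zero1 {r : ℝ} (hr : ∀ a ∈ A, (a : ℝ) < r) (u v : ℝ) (hu : r ≤ u) :
    M0 K A B u v = 0 := by
  unfold M0
  refine Finset.sum_eq_zero fun a ha => Finset.sum_eq_zero fun b _ => ?_
  rw [if_neg]
  rintro ⟨h, -⟩
  have := hr a ha
  linarith

theorem M0_zero2 {r : ℝ} (hr : ∀ b ∈ B, (b : ℝ) < r) (u v : ℝ) (hv : r ≤ v) :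
    M0 K A B u v = 0 := by
  unfold M0
  refine Finset.sum_eq_zero fun a _ => Finset.sum_eq_zero fun b hb => ?_
  rw [if_neg]
  rintro ⟨-, h⟩
  have := hr b hb
  linarith

/-- the smoothed finite part -/
noncomputable def base (c x y : ℝ) : ℝ := ∑ a ∈ A, ∑ b ∈ B, G c x a * K a b * G c b y

/-- the finite truncations -/
noncomputable def Lk (c r : ℝ) (ε : ℕ → ℝ) (k : ℕ) (x y : ℝ) : ℝ :=
  base K A B c x y + ∑ j ∈ Finset.range k, G c x (r + j) * ε j * G c (r + j) y

theorem Lk_eq (c r : ℝ) (ε : ℕ → ℝ) (k : ℕ) (S : Finset ℝ) (hA : ∀ a ∈ A, (a : ℝ) ∈ S)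
    (hB : ∀ b ∈ B, (b : ℝ) ∈ S) (hS : ∀ j < k, r + (j : ℝ) ∈ S) (x y : ℝ) :
    LM c S (Mk (M0 K A B) r ε k) x y = Lk K A B c r ε k x y := by
  have h1 : Mk (M0 K A B) r ε k = fun u v => M0 K A B u v +
      ∑ j ∈ Finset.range k, if u = r + j ∧ v = r + j then ε j else 0 := by
    funext u v
    exact Mk_eq _ _ _ _ _ _
  rw [h1, LM_add]
  unfold Lk
  congr 1
  · unfold M0
    rw [LM_sum]
    unfold base
    refine Finset.sum_congr rfl fun a ha => ?_
    rw [LM_sum]
    refine Finset.sum_congr rfl fun b hb => ?_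
    rw [LM_single c S (hA a ha) (hB b hb)]
  · rw [LM_sum]
    refine Finset.sum_congr rfl fun j hj => ?_
    have := hS j (Finset.mem_range.mp hj)
    rw [LM_single c S this this]

theorem G_pos (c x u : ℝ) : 0 < G c x u := Real.exp_pos _

theorem G_le_one {c : ℝ} (hc : 0 ≤ c) (x u : ℝ) : G c x u ≤ 1 := by
  unfold G
  rw [Real.exp_le_one_iff]
  have : 0 ≤ c * (x - u) ^ 2 := by positivity
  linarith

/-- the full kernel before normalisation -/
noncomputable def Linf (c r η : ℝ) (x y : ℝ) : ℝ :=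
  base K A B c x y + ∑' j : ℕ, G c x (r + j) * (η / 2 / 2 ^ j) * G c (r + j) y

theorem tail_summable {c : ℝ} (hc : 0 ≤ c) (r : ℝ) {η : ℝ} (hη : 0 < η) (x y : ℝ) :
    Summable fun j : ℕ => G c x (r + j) * (η / 2 / 2 ^ j) * G c (r + j) y := by
  refine Summable.of_nonneg_of_le (fun j => ?_) (fun j => ?_) (hasSum_geometric_two' η).summable
  · have := (G_pos c x (r + j)).le
    have := (G_pos c (r + j) y).le
    positivity
  · have h1 := (G_pos c x (r + j)).le
    have h2 := (G_pos c (r + j) y).le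
    have h3 := G_le_one hc x (r + j)
    have h4 := G_le_one hc (r + j) y
    have h5 : (0 : ℝ) ≤ η / 2 / 2 ^ j := by positivity
    calc G c x (r + j) * (η / 2 / 2 ^ j) * G c (r + j) y
        ≤ 1 * (η / 2 / 2 ^ j) * 1 := by gcongr
      _ = _ := by ring

theorem tail_le {c : ℝ} (hc : 0 ≤ c) (r : ℝ) {η : ℝ} (hη : 0 < η) (x y : ℝ) :
    ∑' j : ℕ, G c x (r + j) * (η / 2 / 2 ^ j) * G c (r + j) y ≤ η := by
  refine le_trans ?_ (tsum_geometric_two' η).le
  refine (tail_summable hc r hη x y).tsum_le_tsum (fun j => ?_) (hasSum_geometric_two' η).summable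
  have h1 := (G_pos c x (r + j)).le
  have h2 := (G_pos c (r + j) y).le
  have h3 := G_le_one hc x (r + j)
  have h4 := G_le_one hc (r + j) y
  have h5 : (0 : ℝ) ≤ η / 2 / 2 ^ j := by positivity
  calc G c x (r + j) * (η / 2 / 2 ^ j) * G c (r + j) y
      ≤ 1 * (η / 2 / 2 ^ j) * 1 := by gcongr
    _ = _ := by ring

theorem tail_nonneg (c r : ℝ) {η : ℝ} (hη : 0 < η) (x y : ℝ) :
    0 ≤ ∑' j : ℕ, G c x (r + j) * (η / 2 / 2 ^ j) * G c (r + j) y := by
  refine tsum_nonneg fun j => ?_
  have := (G_pos c x (r + j)).le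
  have := (G_pos c (r + j) y).le
  positivity

theorem Linf_TP (hK : TN K) {c : ℝ} (hc : 0 < c) {r η : ℝ} (hη : 0 < η)
    (hrA : ∀ a ∈ A, (a : ℝ) < r) (hrB : ∀ b ∈ B, (b : ℝ) < r) (n : ℕ) (x y : Fin n → ℝ)
    (hx : StrictMono x) (hy : StrictMono y) :
    0 < (Matrix.of fun i j => Linf K A B c r η (x i) (y j)).det := by
  classical
  set ε : ℕ → ℝ := fun j => η / 2 / 2 ^ j with hε
  have hε0 : ∀ j, 0 ≤ ε j := fun j => by positivity
  have hM := M0_TN K A B hK
  have h1 := M0_zero1 K A B hrA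
  have h2 := M0_zero2 K A B hrB
  let S : ℕ → Finset ℝ := fun k => A.image (fun a : X => (a : ℝ)) ∪ B.image (fun b : Y => (b : ℝ)) ∪
    (Finset.range k).image (fun j : ℕ => r + (j : ℝ))
  have hSA : ∀ k, ∀ a ∈ A, (a : ℝ) ∈ S k := fun k a ha =>
    Finset.mem_union_left _ (Finset.mem_union_left _
      (Finset.mem_image.mpr ⟨a, ha, rfl⟩))
  have hSB : ∀ k, ∀ b ∈ B, (b : ℝ) ∈ S k := fun k b hb =>
    Finset.mem_union_left _ (Finset.mem_union_right _
      (Finset.mem_image.mpr ⟨b, hb, rfl⟩))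
  have hSr : ∀ k, ∀ j < k, r + (j : ℝ) ∈ S k := fun k j hj =>
    Finset.mem_union_right _ (Finset.mem_image_of_mem _ (Finset.mem_range.mpr hj))
  have hpos : 0 < (Matrix.of fun i j => Lk K A B c r ε n (x i) (y j)).det := by
    have h3 := det_LM_pos hc (S n) (Mk_TN hε0 hM h1 h2 n) hx hy
      (fun i : Fin n => r + (i : ℝ)) (fun i : Fin n => r + (i : ℝ))
      (fun i => hSr n i i.2) (fun i => hSr n i i.2)
      (fun i j hij => by
        have : ((i : ℕ) : ℝ) < ((j : ℕ) : ℝ) := by exact_mod_cast hij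
        show r + ((i : ℕ) : ℝ) < r + ((j : ℕ) : ℝ)
        linarith)
      (fun i j hij => by
        have : ((i : ℕ) : ℝ) < ((j : ℕ) : ℝ) := by exact_mod_cast hij
        show r + ((i : ℕ) : ℝ) < r + ((j : ℕ) : ℝ)
        linarith)
      (by
        rw [Mk_diag h1 n, Matrix.det_diagonal]
        exact Finset.prod_pos fun i _ => by positivity)
    have h4 : (Matrix.of fun i j => LM c (S n) (Mk (M0 K A B) r ε n) (x i) (y j)) =
        Matrix.of fun i j => Lk K A B c r ε n (x i) (y j) := by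
      ext i j
      exact Lk_eq K A B c r ε n (S n) (hSA n) (hSB n) (hSr n) _ _
    rw [h4] at h3
    exact h3
  have hmono : ∀ k, n ≤ k → (Matrix.of fun i j => Lk K A B c r ε n (x i) (y j)).det ≤
      (Matrix.of fun i j => Lk K A B c r ε k (x i) (y j)).det := by
    intro k hk
    have h3 := det_LM_mono hc (S k) (M := Mk (M0 K A B) r ε n) (M' := Mk (M0 K A B) r ε k)
      (n := n) (fun u v hu hv => Mk_mono hε0 hM h1 h2 hk u v hu hv) hx hy
    have h4 : (Matrix.of fun i j => LM c (S k) (Mk (M0 K A B) r ε n) (x i) (y j)) =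
        Matrix.of fun i j => Lk K A B c r ε n (x i) (y j) := by
      ext i j
      exact Lk_eq K A B c r ε n (S k) (hSA k) (hSB k) (fun j hj => hSr k j (by omega)) _ _
    have h5 : (Matrix.of fun i j => LM c (S k) (Mk (M0 K A B) r ε k) (x i) (y j)) =
        Matrix.of fun i j => Lk K A B c r ε k (x i) (y j) := by
      ext i j
      exact Lk_eq K A B c r ε k (S k) (hSA k) (hSB k) (hSr k) _ _
    rw [h4, h5] at h3
    exact h3
  have hlim : Tendsto (fun k => (Matrix.of fun i j => Lk K A B c r ε k (x i) (y j)).det) atTop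
      (𝓝 (Matrix.of fun i j => Linf K A B c r η (x i) (y j)).det) := by
    have hmat : Tendsto (fun k => (Matrix.of fun i j => Lk K A B c r ε k (x i) (y j) :
        Matrix (Fin n) (Fin n) ℝ)) atTop
        (𝓝 (Matrix.of fun i j => Linf K A B c r η (x i) (y j))) := by
      refine tendsto_pi_nhds.mpr fun i => tendsto_pi_nhds.mpr fun j => ?_
      show Tendsto (fun k => Lk K A B c r ε k (x i) (y j)) atTop
        (𝓝 (Linf K A B c r η (x i) (y j)))
      exact ((tail_summable hc.le r hη (x i) (y j)).hasSum.tendsto_sum_nat).const_add _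
    exact (Continuous.tendsto (Continuous.matrix_det continuous_id) _).comp hmat
  refine lt_of_lt_of_le hpos ?_
  exact ge_of_tendsto hlim (Filter.eventually_atTop.mpr ⟨n, hmono⟩)

/-- normalising factors -/
noncomputable def al (c x : ℝ) : ℝ := ∑ a ∈ A, G c x a

/-- normalising factors -/
noncomputable def be (c y : ℝ) : ℝ := ∑ b ∈ B, G c b y

/-- the approximating kernel -/
noncomputable def KK (c r η : ℝ) (x : X) (y : Y) : ℝ :=
  (al A c x)⁻¹ * ((be B c y)⁻¹ * Linf K A B c r η x y)

variable {A B}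

theorem al_pos (hA : A.Nonempty) (c x : ℝ) : 0 < al A c x :=
  Finset.sum_pos (fun _ _ => G_pos _ _ _) hA

theorem be_pos (hB : B.Nonempty) (c y : ℝ) : 0 < be B c y :=
  Finset.sum_pos (fun _ _ => G_pos _ _ _) hB

theorem KK_TP (hK : TN K) (hA : A.Nonempty) (hB : B.Nonempty) {c : ℝ} (hc : 0 < c) {r η : ℝ}
    (hη : 0 < η) (hrA : ∀ a ∈ A, (a : ℝ) < r) (hrB : ∀ b ∈ B, (b : ℝ) < r) :
    TP (KK K A B c r η) := by
  intro n x y hx hy
  have h1 : (Matrix.of fun i j => KK K A B c r η (x i) (y j)) =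
      Matrix.of fun i j => (al A c (x i))⁻¹ *
        (Matrix.of fun i j => (be B c (y j))⁻¹ *
          (Matrix.of fun i j => Linf K A B c r η ((x i : ℝ)) ((y j : ℝ))) i j) i j := by
    ext i j
    rfl
  rw [h1, Matrix.det_mul_column, Matrix.det_mul_row]
  refine mul_pos (Finset.prod_pos fun i _ => inv_pos.mpr (al_pos hA _ _))
    (mul_pos (Finset.prod_pos fun i _ => inv_pos.mpr (be_pos hB _ _)) ?_)
  exact Linf_TP K A B hK hc hη hrA hrB n (fun i => (x i : ℝ)) (fun i => (y i : ℝ))
    (fun i j hij => hx hij) (fun i j hij => hy hij)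

/-- The main estimate. -/
theorem KK_close {c : ℝ} (hc : 0 < c) {r η : ℝ}
    (hη : 0 < η) (x : X) (y : Y) {e δ : ℝ} (he : 0 ≤ e) (hδ : 0 < δ) (hδ1 : δ ≤ 1)
    (hcont : ∀ a : X, ∀ b : Y, |(a : ℝ) - x| < δ → |(b : ℝ) - y| < δ → |K a b - K x y| ≤ e)
    {a0 : X} {b0 : Y} (ha0 : a0 ∈ A) (hb0 : b0 ∈ B) (hax : |(a0 : ℝ) - x| < δ / 2)
    (hby : |(b0 : ℝ) - y| < δ / 2) :
    |KK K A B c r η x y - K x y| ≤ e +
      Real.exp (-(c * (3 / 4 * δ ^ 2))) * (∑ a ∈ A, ∑ b ∈ B, (|K a b| + |K x y|)) +
      η * Real.exp (2 * c) := by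
  have hA : A.Nonempty := ⟨a0, ha0⟩
  have hB : B.Nonempty := ⟨b0, hb0⟩
  have hα := al_pos hA c x
  have hβ := be_pos hB c y
  have hα0 : G c x a0 ≤ al A c x :=
    Finset.single_le_sum (f := fun a : X => G c x a) (fun _ _ => (G_pos _ _ _).le) ha0
  have hβ0 : G c b0 y ≤ be B c y :=
    Finset.single_le_sum (f := fun b : Y => G c b y) (fun _ _ => (G_pos _ _ _).le) hb0
  have hG1 : Real.exp (-c) ≤ G c x a0 := by
    unfold G
    apply Real.exp_le_exp.mpr
    have h1 : ((x : ℝ) - a0) ^ 2 ≤ 1 := by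
      rw [← sq_abs, abs_sub_comm]
      have := abs_nonneg ((a0 : ℝ) - x)
      nlinarith
    nlinarith
  have hG2 : Real.exp (-c) ≤ G c b0 y := by
    unfold G
    apply Real.exp_le_exp.mpr
    have h1 : ((b0 : ℝ) - y) ^ 2 ≤ 1 := by
      rw [← sq_abs]
      have := abs_nonneg ((b0 : ℝ) - y)
      nlinarith
    nlinarith
  -- decomposition
  set T : ℝ := ∑' j : ℕ, G c x (r + j) * (η / 2 / 2 ^ j) * G c (r + j) y with hT
  have hT0 : 0 ≤ T := tail_nonneg c r hη x y
  have hT1 : T ≤ η := tail_le hc.le r hη x y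
  have hdec : KK K A B c r η x y - K x y =
      (∑ a ∈ A, ∑ b ∈ B, (G c x a / al A c x) * (G c b y / be B c y) * (K a b - K x y)) +
        (al A c x)⁻¹ * ((be B c y)⁻¹ * T) := by
    have h1 : ∑ a ∈ A, ∑ b ∈ B, (G c x a / al A c x) * (G c b y / be B c y) * (K a b - K x y) =
        (al A c x)⁻¹ * ((be B c y)⁻¹ * base K A B c x y) - K x y := by
      have h2 : ∑ a ∈ A, ∑ b ∈ B, (G c x a / al A c x) * (G c b y / be B c y) * K x y = K x y := by
        simp_rw [← Finset.sum_mul, ← Finset.mul_sum, ← Finset.sum_mul]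
        have h3 : ∑ a ∈ A, G c x a / al A c x = 1 := by
          rw [← Finset.sum_div]; exact div_self hα.ne'
        have h4 : ∑ b ∈ B, G c b y / be B c y = 1 := by
          rw [← Finset.sum_div]; exact div_self hβ.ne'
        rw [h3, h4, one_mul, one_mul]
      conv_rhs => rw [← h2]
      unfold base
      rw [Finset.mul_sum, Finset.mul_sum, ← Finset.sum_sub_distrib]
      refine Finset.sum_congr rfl fun a _ => ?_
      rw [Finset.mul_sum, Finset.mul_sum, ← Finset.sum_sub_distrib]
      refine Finset.sum_congr rfl fun b _ => ?_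
      rw [div_eq_mul_inv, div_eq_mul_inv]
      ring
    rw [h1]
    unfold KK Linf
    ring
  rw [hdec]
  have htail : |(al A c x)⁻¹ * ((be B c y)⁻¹ * T)| ≤ η * Real.exp (2 * c) := by
    rw [abs_of_nonneg (by positivity)]
    have h1 : (al A c x)⁻¹ ≤ Real.exp c := by
      rw [inv_le_comm₀ hα (Real.exp_pos _), ← Real.exp_neg]
      exact hG1.trans hα0
    have h2 : (be B c y)⁻¹ ≤ Real.exp c := by
      rw [inv_le_comm₀ hβ (Real.exp_pos _), ← Real.exp_neg]
      exact hG2.trans hβ0
    calc (al A c x)⁻¹ * ((be B c y)⁻¹ * T) ≤ Real.exp c * (Real.exp c * η) := by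
          gcongr
      _ = η * Real.exp (2 * c) := by
          rw [two_mul, Real.exp_add]; ring
  refine (abs_add_le _ _).trans (add_le_add ?_ htail)
  refine (Finset.abs_sum_le_sum_abs _ _).trans ?_
  have hterm : ∀ a ∈ A, ∀ b ∈ B,
      |(G c x a / al A c x) * (G c b y / be B c y) * (K a b - K x y)| ≤
      (G c x a / al A c x) * (G c b y / be B c y) * e +
        Real.exp (-(c * (3 / 4 * δ ^ 2))) * (|K a b| + |K x y|) := by
    intro a ha b hb
    have hw : 0 ≤ G c x a / al A c x := div_nonneg (G_pos _ _ _).le hα.le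
    have hw' : 0 ≤ G c b y / be B c y := div_nonneg (G_pos _ _ _).le hβ.le
    have hw1 : G c x a / al A c x ≤ 1 := by
      rw [div_le_one hα]
      exact Finset.single_le_sum (f := fun a : X => G c x a) (fun _ _ => (G_pos _ _ _).le) ha
    have hw1' : G c b y / be B c y ≤ 1 := by
      rw [div_le_one hβ]
      exact Finset.single_le_sum (f := fun b : Y => G c b y) (fun _ _ => (G_pos _ _ _).le) hb
    rw [abs_mul, abs_of_nonneg (mul_nonneg hw hw')]
    have hK2 : |K a b - K x y| ≤ |K a b| + |K x y| := abs_sub _ _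
    have hKn : 0 ≤ |K a b| + |K x y| := by positivity
    by_cases h1 : |(a : ℝ) - x| < δ
    · by_cases h2 : |(b : ℝ) - y| < δ
      · have h3 := hcont a b h1 h2
        have h4 : (G c x a / al A c x) * (G c b y / be B c y) * |K a b - K x y| ≤
          (G c x a / al A c x) * (G c b y / be B c y) * e :=
          mul_le_mul_of_nonneg_left h3 (mul_nonneg hw hw')
        have h5 : 0 ≤ Real.exp (-(c * (3 / 4 * δ ^ 2))) * (|K a b| + |K x y|) := by positivity
        linarith
      · push Not at h2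
        have h3 : G c b y / be B c y ≤ Real.exp (-(c * (3 / 4 * δ ^ 2))) := by
          calc G c b y / be B c y ≤ G c b y / G c b0 y := by
                apply div_le_div_of_nonneg_left (G_pos _ _ _).le (G_pos _ _ _) hβ0
            _ = Real.exp (-(c * ((b : ℝ) - y) ^ 2) - -(c * ((b0 : ℝ) - y) ^ 2)) := by
                unfold G; rw [Real.exp_sub]
            _ ≤ _ := by
                apply Real.exp_le_exp.mpr
                have h4 : δ ^ 2 ≤ ((b : ℝ) - y) ^ 2 := by
                  rw [← sq_abs ((b : ℝ) - y)]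
                  exact pow_le_pow_left₀ hδ.le h2 2
                have h5 : ((b0 : ℝ) - y) ^ 2 ≤ (δ / 2) ^ 2 := by
                  rw [← sq_abs ((b0 : ℝ) - y)]
                  exact pow_le_pow_left₀ (abs_nonneg _) hby.le 2
                nlinarith
        have h6 : (G c x a / al A c x) * (G c b y / be B c y) ≤
            Real.exp (-(c * (3 / 4 * δ ^ 2))) := by
          calc _ ≤ 1 * Real.exp (-(c * (3 / 4 * δ ^ 2))) := by gcongr
            _ = _ := one_mul _
        have h7 := mul_le_mul h6 hK2 (abs_nonneg _) (Real.exp_pos _).le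
        have h8 : 0 ≤ (G c x a / al A c x) * (G c b y / be B c y) * e := by positivity
        linarith
    · push Not at h1
      have h3 : G c x a / al A c x ≤ Real.exp (-(c * (3 / 4 * δ ^ 2))) := by
        calc G c x a / al A c x ≤ G c x a / G c x a0 := by
              apply div_le_div_of_nonneg_left (G_pos _ _ _).le (G_pos _ _ _) hα0
          _ = Real.exp (-(c * ((x : ℝ) - a) ^ 2) - -(c * ((x : ℝ) - a0) ^ 2)) := by
              unfold G; rw [Real.exp_sub]
          _ ≤ _ := by
              apply Real.exp_le_exp.mpr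
              have h4 : δ ^ 2 ≤ ((x : ℝ) - a) ^ 2 := by
                rw [← sq_abs ((x : ℝ) - a), abs_sub_comm]
                exact pow_le_pow_left₀ hδ.le h1 2
              have h5 : ((x : ℝ) - a0) ^ 2 ≤ (δ / 2) ^ 2 := by
                rw [← sq_abs ((x : ℝ) - a0), abs_sub_comm]
                exact pow_le_pow_left₀ (abs_nonneg _) hax.le 2
              nlinarith
      have h6 : (G c x a / al A c x) * (G c b y / be B c y) ≤
          Real.exp (-(c * (3 / 4 * δ ^ 2))) := by
        calc _ ≤ Real.exp (-(c * (3 / 4 * δ ^ 2))) * 1 := by gcongr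
          _ = _ := mul_one _
      have h7 := mul_le_mul h6 hK2 (abs_nonneg _) (Real.exp_pos _).le
      have h8 : 0 ≤ (G c x a / al A c x) * (G c b y / be B c y) * e := by positivity
      linarith
  calc ∑ a ∈ A, |∑ b ∈ B, (G c x a / al A c x) * (G c b y / be B c y) * (K a b - K x y)|
      ≤ ∑ a ∈ A, ∑ b ∈ B, ((G c x a / al A c x) * (G c b y / be B c y) * e +
        Real.exp (-(c * (3 / 4 * δ ^ 2))) * (|K a b| + |K x y|)) := by
        refine Finset.sum_le_sum fun a ha => ?_
        refine (Finset.abs_sum_le_sum_abs _ _).trans ?_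
        exact Finset.sum_le_sum fun b hb => hterm a ha b hb
    _ = e + Real.exp (-(c * (3 / 4 * δ ^ 2))) * (∑ a ∈ A, ∑ b ∈ B, (|K a b| + |K x y|)) := by
        simp_rw [Finset.sum_add_distrib]
        congr 1
        · simp_rw [← Finset.sum_mul, ← Finset.mul_sum, ← Finset.sum_mul]
          have h3 : ∑ a ∈ A, G c x a / al A c x = 1 := by
            rw [← Finset.sum_div]; exact div_self hα.ne'
          have h4 : ∑ b ∈ B, G c b y / be B c y = 1 := by
            rw [← Finset.sum_div]; exact div_self hβ.ne'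
          rw [h3, h4, one_mul, one_mul]
        · simp_rw [← Finset.mul_sum, Finset.sum_add_distrib]

end Net

/-- **Positive answer to Q1** (for all nonempty `X`, `Y`): every totally nonnegative kernel is the
limit, at each of its points of continuity, of a sequence of totally positive kernels. -/
theorem result (X Y : Set ℝ) (hX : X.Nonempty) (hY : Y.Nonempty) (K : X → Y → ℝ) (hK : TN K) :
    ∃ Km : ℕ → X → Y → ℝ, (∀ m, TP (Km m)) ∧
      ∀ (x : X) (y : Y), ContinuousAt (fun p : X × Y => K p.1 p.2) (x, y) →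
        Tendsto (fun m => Km m x y) atTop (𝓝 (K x y)) := by
  classical
  have : Nonempty X := hX.to_subtype
  have : Nonempty Y := hY.to_subtype
  let A : ℕ → Finset X := fun m => (Finset.range (m + 1)).image (TopologicalSpace.denseSeq X)
  let B : ℕ → Finset Y := fun m => (Finset.range (m + 1)).image (TopologicalSpace.denseSeq Y)
  have hA : ∀ m, (A m).Nonempty := fun m => ⟨_, Finset.mem_image_of_mem _
    (Finset.mem_range.mpr (Nat.succ_pos m))⟩
  have hB : ∀ m, (B m).Nonempty := fun m => ⟨_, Finset.mem_image_of_mem _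
    (Finset.mem_range.mpr (Nat.succ_pos m))⟩
  have hr : ∀ m, ∃ r : ℝ, (∀ a ∈ A m, (a : ℝ) < r) ∧ ∀ b ∈ B m, (b : ℝ) < r := by
    intro m
    refine ⟨1 + (∑ a ∈ A m, |(a : ℝ)| + ∑ b ∈ B m, |(b : ℝ)|), fun a ha => ?_, fun b hb => ?_⟩
    · have h1 := Finset.single_le_sum (f := fun a : X => |(a : ℝ)|) (fun _ _ => abs_nonneg _) ha
      have h2 : 0 ≤ ∑ b ∈ B m, |(b : ℝ)| := Finset.sum_nonneg fun _ _ => abs_nonneg _
      have h3 := le_abs_self (a : ℝ)
      linarith
    · have h1 := Finset.single_le_sum (f := fun b : Y => |(b : ℝ)|) (fun _ _ => abs_nonneg _) hb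
      have h2 : 0 ≤ ∑ a ∈ A m, |(a : ℝ)| := Finset.sum_nonneg fun _ _ => abs_nonneg _
      have h3 := le_abs_self (b : ℝ)
      linarith
  choose r hrA hrB using hr
  let T : ℕ → ℝ := fun m => ∑ a ∈ A m, ∑ b ∈ B m, (|K a b| + (m + 1))
  have hT : ∀ m, 0 < T m := fun m => Finset.sum_pos (fun a _ => Finset.sum_pos (fun b _ => by
    positivity) (hB m)) (hA m)
  let c : ℕ → ℝ := fun m => ((m : ℝ) + 1) ^ 2 * T m
  have hc : ∀ m, 0 < c m := fun m => mul_pos (by positivity) (hT m)
  let η : ℕ → ℝ := fun m => Real.exp (-(2 * c m)) / (m + 1)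
  have hη : ∀ m, 0 < η m := fun m => by positivity
  refine ⟨fun m => KK K (A m) (B m) (c m) (r m) (η m), fun m =>
    KK_TP K hK (hA m) (hB m) (hc m) (hη m) (hrA m) (hrB m), fun x y hcont => ?_⟩
  rw [Metric.tendsto_atTop]
  intro e he
  obtain ⟨δ0, hδ0, hδc⟩ := Metric.continuousAt_iff.mp hcont (e / 2) (by positivity)
  set δ := min δ0 1 with hδ
  have hδp : 0 < δ := lt_min hδ0 one_pos
  have hδ1 : δ ≤ 1 := min_le_right _ _
  have hcont' : ∀ a : X, ∀ b : Y, |(a : ℝ) - x| < δ → |(b : ℝ) - y| < δ →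
      |K a b - K x y| ≤ e / 2 := by
    intro a b h1 h2
    have h3 := hδc (x := (a, b)) (by
      rw [Prod.dist_eq, max_lt_iff]
      exact ⟨lt_of_lt_of_le h1 (min_le_left _ _), lt_of_lt_of_le h2 (min_le_left _ _)⟩)
    exact h3.le
  obtain ⟨m1, hm1⟩ := (TopologicalSpace.denseRange_denseSeq X).exists_dist_lt x
    (show 0 < δ / 2 by positivity)
  obtain ⟨m2, hm2⟩ := (TopologicalSpace.denseRange_denseSeq Y).exists_dist_lt y
    (show 0 < δ / 2 by positivity)
  have hlim : Tendsto (fun m : ℕ => ((3 / 4 * δ ^ 2)⁻¹ + 1) * (1 / ((m : ℝ) + 1))) atTop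
      (𝓝 (((3 / 4 * δ ^ 2)⁻¹ + 1) * 0)) :=
    tendsto_one_div_add_atTop_nhds_zero_nat.const_mul _
  rw [mul_zero] at hlim
  obtain ⟨N0, hN0⟩ := Filter.eventually_atTop.mp (hlim.eventually (gt_mem_nhds
    (show 0 < e / 2 by positivity)))
  obtain ⟨N1, hN1⟩ := exists_nat_ge |K x y|
  refine ⟨max (max m1 m2) (max N0 N1), fun m hm => ?_⟩
  have hmm1 : m1 ≤ m := le_trans (le_trans (le_max_left _ _) (le_max_left _ _)) hm
  have hmm2 : m2 ≤ m := le_trans (le_trans (le_max_right _ _) (le_max_left _ _)) hm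
  have hmN0 : N0 ≤ m := le_trans (le_trans (le_max_left _ _) (le_max_right _ _)) hm
  have hmN1 : N1 ≤ m := le_trans (le_trans (le_max_right _ _) (le_max_right _ _)) hm
  have hKm : |K x y| ≤ m := hN1.trans (by exact_mod_cast hmN1)
  have key := KK_close (A := A m) (B := B m) K (hc m) (r := r m) (hη m) x y (e := e / 2)
    (by positivity) hδp hδ1 hcont'
    (a0 := TopologicalSpace.denseSeq X m1) (b0 := TopologicalSpace.denseSeq Y m2)
    (Finset.mem_image_of_mem _ (Finset.mem_range.mpr (by omega)))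
    (Finset.mem_image_of_mem _ (Finset.mem_range.mpr (by omega)))
    (by rw [abs_sub_comm]; exact hm1) (by rw [abs_sub_comm]; exact hm2)
  rw [Real.dist_eq]
  refine lt_of_le_of_lt key ?_
  have h1 : Real.exp (-(c m * (3 / 4 * δ ^ 2))) *
      (∑ a ∈ A m, ∑ b ∈ B m, (|K a b| + |K x y|)) ≤ (3 / 4 * δ ^ 2)⁻¹ * (1 / ((m : ℝ) + 1)) := by
    have h2 : ∑ a ∈ A m, ∑ b ∈ B m, (|K a b| + |K x y|) ≤ T m :=
      Finset.sum_le_sum fun a _ => Finset.sum_le_sum fun b _ => by linarith
    have hpos : 0 < c m * (3 / 4 * δ ^ 2) := mul_pos (hc m) (by positivity)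
    have h3 : Real.exp (-(c m * (3 / 4 * δ ^ 2))) ≤ (c m * (3 / 4 * δ ^ 2))⁻¹ := by
      rw [Real.exp_neg]
      apply inv_anti₀ hpos
      have := Real.add_one_le_exp (c m * (3 / 4 * δ ^ 2))
      linarith
    calc _ ≤ (c m * (3 / 4 * δ ^ 2))⁻¹ * T m := by
          apply mul_le_mul h3 h2 _ (inv_nonneg.mpr hpos.le)
          exact Finset.sum_nonneg fun a _ => Finset.sum_nonneg fun b _ => by positivity
      _ = (3 / 4 * δ ^ 2)⁻¹ * (1 / ((m : ℝ) + 1) ^ 2) := by
          show (((m : ℝ) + 1) ^ 2 * T m * (3 / 4 * δ ^ 2))⁻¹ * T m = _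
          have := (hT m).ne'
          field_simp
      _ ≤ _ := by
          gcongr
          have : (0 : ℝ) ≤ m := Nat.cast_nonneg _
          nlinarith
  have h2 : η m * Real.exp (2 * c m) = 1 / ((m : ℝ) + 1) := by
    show Real.exp (-(2 * c m)) / (m + 1) * Real.exp (2 * c m) = _
    rw [div_mul_eq_mul_div, ← Real.exp_add]
    simp
  rw [h2]
  have h3 := hN0 m hmN0
  linarith

end Pool.Agent.Results.MP_c12a31_an.Approx
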